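import Pool.Agent.K6.H69.ZM.Num

/-!
# Simultaneous measure for `ζ(7), ζ(9), ζ(11), ζ(13)`: the series for general `u`, and the archimedean bound
-/

open Polynomial Pool.Agent.H337R2 Pool.Agent.TH900.OM Filter Topology

namespace Pool.Agent.K6.H69.ZM

open Pool.Agent.H343Z

noncomputable section

/-- the four indices: `u i` stands for `ζ(i + 4)` -/
abbrev I4 : Finset ℕ := {3, 5, 7, 9}

lemma rho_one {n : ℕ} (hn : 2 ≤ n) (Q : ℚ[X]) (hQ : Q.natDegree ≤ 50 * n - 52) : rho n Q 1 = 0 := by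
  unfold rho
  exact residue_sum (sN n) (muN n) (PPn n * EE n Q) (B1_deg hn Q hQ)

lemma rho_even {n : ℕ} (hn : 2 ≤ n) (Q : ℚ[X]) {i : ℕ} (hi : Even i) (hi1 : 1 ≤ i) : rho n Q i = 0 := by
  unfold rho
  exact even_vanish (sN n) (muN n) (PPn n * EE n Q) (18 * n)
      (fun k hk => ss_reflect 18 2 n hk) (fun k hk => mu_reflect 18 n ds10 (ss_reflect 18 2 n hk).1)
      (B1_P_comp n Q) (even_sum_mu 18 2 n ds10 (by omega) (by decide) (by decide) (by decide)) hi hi1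

theorem gen_hasSum {n : ℕ} (hn : 2 ≤ n) (u : ℕ → ℚ) (Q : ℚ[X]) (hQ : Q.natDegree ≤ 50 * n - 52) :
    HasSum (fun t : ℕ => ((PowerSeries.coeff 4 (RS (sN n) (muN n) (PPn n * EE n Q) (t : ℚ)) : ℚ) : ℝ))
      (((NL n u Q : ℚ) : ℝ) + ∑ i ∈ I4, ((Nat.choose (i + 3) 4 : ℕ) : ℝ) *
        (((rho n Q i : ℚ) : ℝ) * (zr (i + 4) - (u i : ℝ)))) := by
  have hd := B1_deg hn Q hQ
  have hdeg' : (PPn n * EE n Q).degree < (QQ (sN n) (muN n)).degree := by
    rw [Polynomial.degree_eq_natDegree (QQ_monic _ _).ne_zero]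
    exact lt_of_le_of_lt Polynomial.degree_le_natDegree (by exact_mod_cast (by omega))
  have h1 := linear_form' (sN n) (muN n) (PPn n * EE n Q) hdeg' 4 (2 * n) 10 (by omega)
    (fun k hk => by rw [sN, ss, Finset.mem_Icc] at hk; omega)
    (fun k _ => mu_le_length 18 n ds10 k)
    (fun m hm => Dvd.dvd.mul_right (PP_dvd 5 18 2 n ds10 hm) _)
  convert h1 using 1
  rw [NL_apply]
  have hsub : I4 ⊆ Finset.Icc 1 10 := by decide
  have e1 : ∑ i ∈ I4, ((Nat.choose (i + 3) 4 : ℕ) : ℝ) * (((rho n Q i : ℚ) : ℝ) * (zr (i + 4) - (u i : ℝ))) =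
      ∑ i ∈ Finset.Icc 1 10, ((Nat.choose (i + 3) 4 : ℕ) : ℝ) * (((rho n Q i : ℚ) : ℝ) * (zr (i + 4) - (u i : ℝ))) := by
    apply Finset.sum_subset hsub
    intro i hi hi2
    have h0 : rho n Q i = 0 := by
      rw [Finset.mem_Icc] at hi
      by_cases hev : Even i
      · exact rho_even hn Q hev hi.1
      · have : i = 1 := by
          obtain ⟨j, hj⟩ := Nat.not_even_iff_odd.1 hev
          simp only [I4, Finset.mem_insert, Finset.mem_singleton, not_or] at hi2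
          omega
        rw [this]
        exact rho_one hn Q hQ
    rw [h0]
    simp
  rw [e1]
  unfold xf rho
  push_cast
  rw [← Finset.sum_add_distrib]
  apply Finset.sum_congr rfl
  intro i hi
  rw [Finset.mem_Icc] at hi
  have hch : (-1) ^ 4 * ((Nat.choose (i - 1 + 4) (i - 1) : ℕ) : ℝ) = ((Nat.choose (i + 3) 4 : ℕ) : ℝ) := by
    have : Nat.choose (i - 1 + 4) (i - 1) = Nat.choose (i + 3) 4 := by
      rw [show i - 1 + 4 = i + 3 by omega, ← Nat.choose_symm_of_eq_add (show i + 3 = (i - 1) + 4 by omega)]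
    rw [this]
    norm_num
  rw [hch]
  ring

/-- the contour -/
lemma contour_eq {n : ℕ} (Q : ℚ[X]) (U : ℕ) (r : ℝ) :
    ‖aeval (zv U r) (PPn n * EE n Q) / aeval (zv U r) (QQ (sN n) (muN n))‖ =
      ‖Rv n (zv U r)‖ * ‖xv n (zv U r)‖ ^ 55 * ‖aeval (xv n (zv U r)) Q‖ := by
  rw [map_mul]
  have e1 : aeval (zv U r) (EE n Q) = (xv n (zv U r)) ^ 55 * aeval (xv n (zv U r)) Q := by
    unfold EE
    have e2 : aeval (zv U r) (xp n) = xv n (zv U r) := by
      unfold xp xv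
      simp
    rw [Polynomial.aeval_comp, e2, map_mul, map_pow, aeval_X]
  rw [e1]
  unfold Rv
  rw [norm_div, norm_div, norm_mul, norm_mul, norm_pow]
  ring

/-- the property of `u` used in the archimedean part -/
def Nice (C : ℝ) (n : ℕ) (u : ℕ → ℚ) : Prop :=
  ∀ Q : ℚ[X], Q.natDegree ≤ 50 * n - 52 → ∀ U : ℕ, U ≤ n →
    (∀ t < U, (X - Polynomial.C (xq n t)) ^ 5 ∣ Q) → ∀ B : ℝ,
    (∀ r : ℝ, 0 ≤ r → ‖Rv n (zv U r)‖ * ‖xv n (zv U r)‖ ^ 55 * ‖aeval (xv n (zv U r)) Q‖ *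
      Real.exp (-(2 * Real.pi * r)) ≤ B * (1 + r ^ 2)⁻¹) →
    |((NL n u Q : ℚ) : ℝ)| ≤ C * B

theorem nice_of_close : ∃ C : ℝ, 0 < C ∧ ∀ᶠ n : ℕ in atTop, ∀ u : ℕ → ℚ,
    (∀ i ∈ I4, |zr (i + 4) - (u i : ℝ)| ≤ Real.exp (-(643.5 * n))) → Nice C n u := by
  obtain ⟨C, hC, hCK⟩ := Pool.Agent.H343Z.V1_shift (b := 5) (by norm_num)
  refine ⟨C + 1, by linarith, ?_⟩
  filter_upwards [KK_small (4 * 495) (by norm_num), eventually_ge_atTop 50] with n hK hn u hu Q hQ U hU hUd B hB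
  have hdeg := V2_deg (by omega) Q hQ
  have hsum := gen_hasSum (by omega) u Q hQ
  have hB0 : 0 ≤ B := by
    have h := hB 0 le_rfl
    simp only [mul_zero, neg_zero, Real.exp_zero, mul_one, ne_eq, OfNat.ofNat_ne_zero,
      not_false_eq_true, zero_pow, add_zero, inv_one] at h
    exact le_trans (by positivity) h
  have hB' : ∀ r : ℝ, 0 ≤ r → ‖aeval (zv U r) (PPn n * EE n Q) / aeval (zv U r) (QQ (sN n) (muN n))‖ *
      Real.exp (-(2 * Real.pi * r)) ≤ B * (1 + r ^ 2)⁻¹ := by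
    intro r hr
    rw [contour_eq]
    exact hB r hr
  have h1 := hCK (sN n) (muN n) (PPn n * EE n Q) hdeg (by
    intro k hk
    have hk' : k ∈ Finset.Icc (2 * n + 1) (18 * n - 2 * n - 1) := hk
    rw [Finset.mem_Icc] at hk'
    omega) U _ hsum (fun t ht => V2_vanish (hUd t ht)) B hB'
  have h2 : |∑ i ∈ I4, ((Nat.choose (i + 3) 4 : ℕ) : ℝ) * (((rho n Q i : ℚ) : ℝ) * (zr (i + 4) - (u i : ℝ)))| ≤ B := by
    refine (Finset.abs_sum_le_sum_abs _ _).trans ?_
    have h3 : ∀ i ∈ I4, |((Nat.choose (i + 3) 4 : ℕ) : ℝ) * (((rho n Q i : ℚ) : ℝ) * (zr (i + 4) - (u i : ℝ)))| ≤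
        495 * (B * KK n * Real.exp (-(643.5 * n))) := by
      intro i hi
      have hi1 : 1 ≤ i ∧ i ≤ 9 := by
        simp only [I4, Finset.mem_insert, Finset.mem_singleton] at hi
        omega
      have hr := rho_le hn Q hQ U hU B (fun r hr => hB' r hr) i hi1.1
      rw [abs_mul, abs_mul]
      have hch : |((Nat.choose (i + 3) 4 : ℕ) : ℝ)| ≤ 495 := by
        rw [Nat.abs_cast]
        have : Nat.choose (i + 3) 4 ≤ Nat.choose 12 4 := Nat.choose_le_choose 4 (by omega)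
        have h20 : Nat.choose 12 4 = 495 := by decide
        rw [h20] at this
        exact_mod_cast this
      exact mul_le_mul hch (mul_le_mul hr (hu i hi) (abs_nonneg _) ((abs_nonneg _).trans hr))
        (by positivity) (by norm_num)
    refine (Finset.sum_le_sum h3).trans ?_
    rw [Finset.sum_const]
    have hc : I4.card = 4 := by decide
    rw [hc, nsmul_eq_mul]
    push_cast
    calc (4 : ℝ) * (495 * (B * KK n * Real.exp (-(643.5 * n)))) =
        B * (4 * 495 * KK n * Real.exp (-(643.5 * n))) := by ring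
      _ ≤ B * 1 := mul_le_mul_of_nonneg_left hK hB0
      _ = B := mul_one B
  rw [abs_le] at h1 h2 ⊢
  constructor <;> nlinarith

end

end Pool.Agent.K6.H69.ZM
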