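import Pool.Agent.K6.H69.ZM.Rho
import Pool.Agent.TH900.OM.KG

/-!
# Simultaneous measure for `ζ(7), ζ(9), ζ(11), ζ(13)`: numerical bound of the constants of `Rho.lean`
-/

open Filter Topology Pool.Agent.TH900.OM

namespace Pool.Agent.K6.H69.ZM

noncomputable section

/-- the constant in front of the exponential -/
def CK : ℝ := 14 * (((12 : ℕ) : ℝ) * ((10 : ℕ) : ℝ) + ((10 : ℕ) : ℝ)) ^ 2 *
  (((12 : ℕ) : ℝ) + 1) ^ (2 * 10 * 10) *
  (24.7 * 24.8 * (160 / 7) * Real.exp 1 / (((12 : ℕ) : ℝ) * ((10 : ℕ) : ℝ))) ^ 10 *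
  Real.exp (Real.pi * ((10 : ℕ) : ℝ) / 8)

lemma log_num : Real.log 19.447 ≤ 2.9687 := by
  have h1 : (19.447 : ℝ) ^ 4 = 2 ^ 17 * (19.447 ^ 4 / 2 ^ 17) := by norm_num
  have h0 : 4 * Real.log 19.447 = 17 * Real.log 2 + Real.log (19.447 ^ 4 / 2 ^ 17) := by
    have h2 : Real.log ((19.447 : ℝ) ^ 4) = Real.log (2 ^ 17 * (19.447 ^ 4 / 2 ^ 17)) := by rw [← h1]
    rw [Real.log_pow, Real.log_mul (by norm_num) (by norm_num), Real.log_pow] at h2
    push_cast at h2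
    exact h2
  have h2 : Real.log (19.447 ^ 4 / 2 ^ 17) ≤ 19.447 ^ 4 / 2 ^ 17 - 1 := Real.log_le_sub_one_of_pos (by norm_num)
  have h3 := Real.log_two_lt_d9
  norm_num at h2 h3 h0 ⊢
  linarith

lemma KK_le {n : ℕ} (hn : 1 ≤ n) : KK n ≤ CK * (n : ℝ) ^ (3 + 2 * 10 * 10 + 10) * Real.exp (643.4 * n) := by
  have hn1 : (1 : ℝ) ≤ n := by exact_mod_cast hn
  have h := KG_le 14 24.7 24.8 (by norm_num) (by norm_num) (by norm_num) 12 10 10 (by norm_num) (by norm_num)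
    (n := n) (D := 120 * n + 10) (D' := 120 * n + 9) (L := 12 * n) hn (by ring) (by ring) rfl
  unfold KK
  refine h.trans ?_
  unfold CK
  apply mul_le_mul_of_nonneg_left _ (by positivity)
  have h1 : (24.7 * 24.8 * (160 / 7) * 2 / (((12 : ℕ) : ℝ) * ((10 : ℕ) : ℝ) * ((12 : ℕ) : ℝ))) ≤ 19.447 := by
    norm_num
  have h2 : (24.7 * 24.8 * (160 / 7) * 2 / (((12 : ℕ) : ℝ) * ((10 : ℕ) : ℝ) * ((12 : ℕ) : ℝ))) ^ (12 * 10 * n) ≤
      Real.exp (120 * n * 2.9687) := by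
    refine (pow_le_pow_left₀ (by positivity) h1 _).trans ?_
    calc (19.447 : ℝ) ^ (12 * 10 * n) = Real.exp (Real.log 19.447) ^ (12 * 10 * n) := by
          rw [Real.exp_log (by norm_num)]
      _ = Real.exp (((12 * 10 * n : ℕ) : ℝ) * Real.log 19.447) := by rw [Real.exp_nat_mul]
      _ ≤ _ := by
        apply Real.exp_le_exp.2
        push_cast
        have := log_num
        nlinarith
  refine (mul_le_mul_of_nonneg_right h2 (Real.exp_pos _).le).trans ?_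
  rw [← Real.exp_add]
  apply Real.exp_le_exp.2
  have hpi := Real.pi_lt_d4
  push_cast
  nlinarith

/-- for large `n`, `C KK(n) ≤ e^{643.5 n}` -/
theorem KK_small (C : ℝ) (hC : 0 ≤ C) : ∀ᶠ n : ℕ in atTop, C * KK n * Real.exp (-(643.5 * n)) ≤ 1 := by
  filter_upwards [exp_poly (C * CK) 1 0.1 (3 + 2 * 10 * 10 + 10) one_pos (by norm_num), eventually_ge_atTop 1] with n h1 h2
  refine le_trans ?_ h1
  have h := KK_le h2
  have hn1 : (1 : ℝ) ≤ n := by exact_mod_cast h2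
  calc C * KK n * Real.exp (-(643.5 * n)) ≤
      C * (CK * (n : ℝ) ^ (3 + 2 * 10 * 10 + 10) * Real.exp (643.4 * n)) * Real.exp (-(643.5 * n)) := by
        apply mul_le_mul_of_nonneg_right _ (Real.exp_pos _).le
        exact mul_le_mul_of_nonneg_left h hC
    _ = C * CK * (n : ℝ) ^ (3 + 2 * 10 * 10 + 10) * (Real.exp (643.4 * n) * Real.exp (-(643.5 * n))) := by ring
    _ = _ := by
        rw [← Real.exp_add]
        congr 2
        ring

end

end Pool.Agent.K6.H69.ZM
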