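import Pool.Agent.TH900.OM.RGU
import Pool.Agent.K6.H73.Z7.V2

/-!
# Simultaneous measure for `ζ(7), ζ(9), ζ(11), ζ(13)`: bound for the coefficients of the `u i`
-/

open Polynomial Pool.Agent.H337R2 Pool.Agent.TH900.OM

namespace Pool.Agent.K6.H69.ZM

open Pool.Agent.H343Z

noncomputable section

lemma zv_eq (U : ℕ) (r : ℝ) : zv U r = zu U r := rfl

lemma muN_eq {n k : ℕ} (h1 : 3 * n ≤ k) (h2 : k ≤ 15 * n) : muN n k = 10 := by
  unfold muN mu
  have : k + 3 * n ≤ 18 * n := by omega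
  simp [h1, this]

lemma muN_zero {n k : ℕ} (h : ¬ (3 * n ≤ k ∧ k ≤ 15 * n)) : muN n k = 0 := by
  unfold muN mu
  have : ¬ (3 * n ≤ k ∧ k + 3 * n ≤ 18 * n) := by omega
  simp [this]

lemma VV_le {n k : ℕ} (hn : 1 ≤ n) (h3 : 3 * n ≤ k) (h13 : k ≤ 15 * n) :
    NS 10 (VV ((sN n).erase k) (muN n) (-(k : ℚ))) ≤
      ((((12 * n : ℕ) : ℝ) + 1) ^ (2 * 10) * 2 ^ (12 * n) / ((12 * n).factorial : ℝ)) ^ 10 := by
  have hks : k ∈ sN n := by
    unfold sN ss
    rw [Finset.mem_Icc]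
    omega
  unfold VV
  refine (NS_prod _ _ _).trans ?_
  have h1 : ∏ m ∈ (sN n).erase k, NS 10 (iv (-(k : ℚ) + m) ^ muN n m) ≤ ∏ m ∈ sN n, fk 10 k m ^ muN n m := by
    rw [← Finset.mul_prod_erase (sN n) (fun m => fk 10 k m ^ muN n m) hks]
    have hkk : fk 10 k k = 1 := by simp [fk]
    rw [hkk, one_pow, one_mul]
    refine Finset.prod_le_prod (fun m _ => NS_nonneg _ _) fun m hm => ?_
    rw [Finset.mem_erase] at hm
    refine (NS_pow _ _ _).trans (le_of_eq ?_)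
    unfold fk
    rw [if_neg hm.1]
  refine h1.trans ?_
  have h2 := prod_mu 18 2 n ds10 hn (by decide) (by decide) (fk 10 k)
  have hds : ds10 = List.replicate 10 3 := rfl
  rw [h2, hds, List.map_replicate, List.prod_replicate]
  apply pow_le_pow_left₀ (Finset.prod_nonneg fun m _ => fk_nonneg _ _ _)
  have b := brick_le 10 (a := 3 * n) (b := 18 * n - 3 * n) (k := k) (by omega) (by omega)
  rw [show 18 * n - 3 * n - 3 * n = 12 * n by omega] at b
  exact b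

/-- the constant -/
def KK (n : ℕ) : ℝ := (14 * n) * ((((120 * n + 10 : ℕ) : ℝ) *
  ((Real.exp (2 * Real.pi * (((120 * n + 10 : ℕ) : ℝ) / 16)) * (24.7 * (n : ℝ)) ^ (120 * n + 10)) *
  ((24.8 * (n : ℝ)) ^ (120 * n + 9) / ((7 / 160) ^ (120 * n + 9) * ((120 * n + 9).factorial : ℝ))))) *
  ((((12 * n : ℕ) : ℝ) + 1) ^ (2 * 10) * 2 ^ (12 * n) / ((12 * n).factorial : ℝ)) ^ 10)

/-- the coefficient of `u i`, up to a binomial -/
def rho (n : ℕ) (Q : ℚ[X]) (i : ℕ) : ℚ := ∑ k ∈ sN n, pa (sN n) (muN n) (PPn n * EE n Q) k i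

lemma sum_muN {n : ℕ} (hn : 1 ≤ n) : 120 * n + 10 = ∑ m ∈ sN n, muN n m := by
  rw [← B1_QQ_deg hn, QQ_natDegree]

theorem rho_le {n : ℕ} (hn : 50 ≤ n) (Q : ℚ[X]) (hQ : Q.natDegree ≤ 50 * n - 52) (U : ℕ) (hU : U ≤ n) (B : ℝ)
    (hB : ∀ r : ℝ, 0 ≤ r → ‖aeval (zu U r) (PPn n * EE n Q) / aeval (zu U r) (QQ (sN n) (muN n))‖ *
      Real.exp (-(2 * Real.pi * r)) ≤ B * (1 + r ^ 2)⁻¹) (i : ℕ) (hi : 1 ≤ i) :
    |((rho n Q i : ℚ) : ℝ)| ≤ B * KK n := by
  have hB0 : 0 ≤ B := by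
    have h := hB 0 le_rfl
    simp only [mul_zero, neg_zero, Real.exp_zero, mul_one, ne_eq, OfNat.ofNat_ne_zero,
      not_false_eq_true, zero_pow, add_zero, inv_one] at h
    exact le_trans (by positivity) h
  have hn1 : (50 : ℝ) ≤ n := by exact_mod_cast hn
  have hU1 : (U : ℝ) ≤ n := by exact_mod_cast hU
  have hU0 : (0 : ℝ) ≤ U := by positivity
  have hdeg := B1_deg (n := n) (by omega) Q hQ
  rw [B1_QQ_deg (by omega)] at hdeg
  set P := PPn n * EE n Q with hP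
  have hr : ∀ r : ℝ, 0 ≤ r → r ≤ ((120 * n + 10 : ℕ) : ℝ) / 16 → ∀ m : ℕ, m ≤ 15 * n → ‖zu U r + m‖ ≤ 24.7 * n := by
    intro r hr0 hr1 m hm
    have hm' : (m : ℝ) ≤ 15 * n := by exact_mod_cast hm
    have hm0 : (0 : ℝ) ≤ m := by positivity
    have hr2 : r ≤ 7.5 * n + 5 / 8 := by
      push_cast at hr1
      linarith
    have h1 := zu_add_sq U r (m : ℝ)
    have h2 : ‖zu U r + m‖ ^ 2 = (U - 1 / 2 + r + m) ^ 2 + r ^ 2 := by
      rw [← h1]; simp
    have h3 : ((U : ℝ) - 1 / 2 + r + m) ^ 2 ≤ (23.5 * n + 1 / 8) ^ 2 := by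
      apply sq_le_sq'
      · linarith
      · linarith
    have h4 : r ^ 2 ≤ (7.5 * n + 5 / 8) ^ 2 := pow_le_pow_left₀ hr0 hr2 2
    apply le_of_sq_le_sq _ (by positivity)
    rw [h2]
    nlinarith
  set A : ℝ := B * (((120 * n + 10 : ℕ) : ℝ) *
    ((Real.exp (2 * Real.pi * (((120 * n + 10 : ℕ) : ℝ) / 16)) * (24.7 * (n : ℝ)) ^ (120 * n + 10)) *
    ((24.8 * (n : ℝ)) ^ (120 * n + 9) / ((7 / 160) ^ (120 * n + 9) * ((120 * n + 9).factorial : ℝ))))) with hA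
  set V : ℝ := ((((12 * n : ℕ) : ℝ) + 1) ^ (2 * 10) * 2 ^ (12 * n) / ((12 * n).factorial : ℝ)) ^ 10 with hV
  have hA0 : 0 ≤ A := by rw [hA]; positivity
  have hV0 : 0 ≤ V := by rw [hV]; positivity
  have hpa : ∀ k ∈ sN n, |((pa (sN n) (muN n) P k i : ℚ) : ℝ)| ≤ A * V := by
    intro k hk
    by_cases h : 3 * n ≤ k ∧ k ≤ 15 * n
    · refine pa_le 10 (sN n) (muN n) P k i (by rw [muN_eq h.1 h.2]) hi A V ?_ ?_ (by positivity)
      · have h1 := NS_lineU U 10 (sN n) (muN n) P (120 * n + 10) (sum_muN (by omega)) (by omega)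
          (fun k hk => by
            have hk' : k ∈ Finset.Icc (2 * n + 1) (18 * n - 2 * n - 1) := hk
            rw [Finset.mem_Icc] at hk'
            omega) B (24.7 * n) (24.8 * n) hB
          (fun m _ hμ r hr0 hr1 => hr r hr0 hr1 m (by
            by_contra hcon
            exact hμ (muN_zero (by omega)))) k
          (fun r hr0 hr1 => by
            have := hr r hr0 hr1 k h.2
            linarith)
        rw [show 120 * n + 10 - 1 = 120 * n + 9 by omega] at h1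
        exact h1
      · exact VV_le (by omega) h.1 h.2
    · unfold pa
      rw [muN_zero h, if_neg (by omega)]
      simp only [Rat.cast_zero, abs_zero]
      positivity
  unfold rho
  push_cast
  refine (Finset.abs_sum_le_sum_abs _ _).trans ?_
  refine (Finset.sum_le_sum hpa).trans ?_
  rw [Finset.sum_const, nsmul_eq_mul]
  have hcard : (((sN n).card : ℕ) : ℝ) ≤ 14 * n := by
    have h1 : (sN n).card ≤ 14 * n := by
      unfold sN ss
      rw [Nat.card_Icc]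
      omega
    exact_mod_cast h1
  refine (mul_le_mul_of_nonneg_right hcard (by positivity)).trans (le_of_eq ?_)
  unfold KK
  rw [← hV, hA]
  clear_value V
  generalize Real.exp (2 * Real.pi * (((120 * n + 10 : ℕ) : ℝ) / 16)) * (24.7 * (n : ℝ)) ^ (120 * n + 10) = E1
  generalize ((24.8 * (n : ℝ)) ^ (120 * n + 9) / ((7 / 160) ^ (120 * n + 9) * ((120 * n + 9).factorial : ℝ))) = E2
  ring

end

end Pool.Agent.K6.H69.ZM
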